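import Pool.Agent.Lib.MP_6ec4b3_lc.Interfaces

/-!
# The number of cycles of a block permutation, and the weights of the cosets
-/

namespace Pool.Agent.Polya.H43

open Equiv Equiv.Perm

/-- The block permutations, as a homomorphism. -/
def blockHom (M : ℕ) : (Fin M → Perm (Fin 4)) →* Perm (Fin (M * 4)) where
  toFun := blockPerm
  map_one' := by
    ext x
    simp [blockPerm, Equiv.permCongr_apply, Equiv.prodCongrRight, Nat.mod_add_div]
  map_mul' f g := by
    ext x
    simp [blockPerm, Equiv.permCongr_apply, Equiv.prodCongrRight]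

theorem block_apply {M : ℕ} (f : Fin M → Perm (Fin 4)) (j : Fin M) (a : Fin 4) :
    blockPerm f (finProdFinEquiv (j, a)) = finProdFinEquiv (j, f j a) := by
  simp [blockPerm, Equiv.permCongr_apply, Equiv.prodCongrRight]

theorem block_zpow {M : ℕ} (f : Fin M → Perm (Fin 4)) (i : ℤ) (j : Fin M) (a : Fin 4) :
    (blockPerm f ^ i) (finProdFinEquiv (j, a)) = finProdFinEquiv (j, (f j ^ i) a) := by
  have h : blockPerm f ^ i = blockPerm (f ^ i) := by
    have := map_zpow (blockHom M) f i
    exact this.symm
  rw [h, block_apply]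
  rfl

theorem sameCycle_block {M : ℕ} (f : Fin M → Perm (Fin 4)) (j j' : Fin M) (a a' : Fin 4) :
    SameCycle (blockPerm f) (finProdFinEquiv (j, a)) (finProdFinEquiv (j', a')) ↔
      j = j' ∧ SameCycle (f j') a a' := by
  constructor
  · rintro ⟨i, hi⟩
    rw [block_zpow] at hi
    have := finProdFinEquiv.injective hi
    rw [Prod.mk.injEq] at this
    obtain ⟨rfl, h2⟩ := this
    exact ⟨rfl, i, h2⟩
  · rintro ⟨rfl, i, hi⟩
    exact ⟨i, by rw [block_zpow, hi]⟩

/-- The classes of the blocks, put together. -/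
def toBlock {M : ℕ} (f : Fin M → Perm (Fin 4)) :
    (Σ j : Fin M, Quotient (SameCycle.setoid (f j))) →
      Quotient (SameCycle.setoid (blockPerm f)) :=
  fun x => Quotient.map (sa := SameCycle.setoid (f x.1)) (sb := SameCycle.setoid (blockPerm f))
    (fun a => finProdFinEquiv (x.1, a))
    (fun a b hab => (sameCycle_block f x.1 x.1 a b).2 ⟨rfl, hab⟩) x.2

theorem toBlock_bijective {M : ℕ} (f : Fin M → Perm (Fin 4)) :
    Function.Bijective (toBlock f) := by
  constructor
  · rintro ⟨j, q⟩ ⟨j', q'⟩ h
    induction q using Quotient.inductionOn with | _ a => ?_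
    induction q' using Quotient.inductionOn with | _ a' => ?_
    have h1 : SameCycle (blockPerm f) (finProdFinEquiv (j, a)) (finProdFinEquiv (j', a')) :=
      Quotient.exact h
    obtain ⟨rfl, h2⟩ := (sameCycle_block f j j' a a').1 h1
    congr 1
    exact Quotient.sound h2
  · intro q
    induction q using Quotient.inductionOn with | _ x => ?_
    refine ⟨⟨(finProdFinEquiv.symm x).1, Quotient.mk _ (finProdFinEquiv.symm x).2⟩, ?_⟩
    show Quotient.mk _ _ = _
    congr 1
    exact finProdFinEquiv.apply_symm_apply x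

theorem cyc_block (M : ℕ) (f : Fin M → Perm (Fin 4)) :
    cyc (blockPerm f) = ∑ j, cyc (f j) := by
  unfold cyc
  rw [← Nat.card_congr (Equiv.ofBijective _ (toBlock_bijective f)), Nat.card_sigma]

theorem cyc_eq {g : Perm (Fin 4)} {n : ℕ} (c : Fin 4 → Fin n) (hc : Function.Surjective c)
    (h : ∀ a b, SameCycle g a b ↔ c a = c b) : cyc g = n := by
  unfold cyc
  have e : Quotient (SameCycle.setoid g) ≃ Fin n := by
    refine Equiv.ofBijective
      (Quotient.lift (s := SameCycle.setoid g) c (fun a b hab => (h a b).1 hab)) ⟨?_, ?_⟩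
    · intro x y hxy
      induction x using Quotient.inductionOn with | _ a => ?_
      induction y using Quotient.inductionOn with | _ b => ?_
      exact Quotient.sound ((h a b).2 hxy)
    · intro y
      obtain ⟨a, ha⟩ := hc y
      exact ⟨Quotient.mk _ a, ha⟩
  rw [Nat.card_congr e, Nat.card_eq_fintype_card, Fintype.card_fin]

theorem same_iff {g : Perm (Fin 4)} {n : ℕ} (c : Fin 4 → Fin n) (hg : ∀ a, c (g a) = c a)
    (h : ∀ a b, c a = c b → a = b ∨ g a = b ∨ g (g a) = b ∨ g (g (g a)) = b) (a b : Fin 4) :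
    SameCycle g a b ↔ c a = c b := by
  constructor
  · rintro ⟨i, rfl⟩
    have hz : ∀ i : ℤ, ∀ a, c ((g ^ i) a) = c a := by
      have hn : ∀ m : ℕ, ∀ a, c ((g ^ m) a) = c a := by
        intro m
        induction m with
        | zero => intro a; rfl
        | succ m ih => intro a; rw [pow_succ, Perm.mul_apply, ih, hg]
      intro i a
      cases i with
      | ofNat m => exact hn m a
      | negSucc m =>
        rw [zpow_negSucc]
        have := hn (m + 1) ((g ^ (m + 1))⁻¹ a)
        rw [← Perm.mul_apply, mul_inv_cancel, Perm.one_apply] at this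
        exact this.symm
    exact (hz i a).symm
  · intro hab
    rcases h a b hab with h | h | h | h
    · subst h; exact SameCycle.refl _ _
    · exact ⟨1, by simpa using h⟩
    · exact ⟨2, by rw [show (2 : ℤ) = 1 + 1 from rfl, zpow_add]; simpa using h⟩
    · exact ⟨3, by
        rw [show (3 : ℤ) = 1 + 1 + 1 from rfl, zpow_add, zpow_add]; simpa using h⟩

theorem cyc_of {g : Perm (Fin 4)} {n : ℕ} (c : Fin 4 → Fin n) (hc : Function.Surjective c)
    (hg : ∀ a, c (g a) = c a)
    (h : ∀ a b, c a = c b → a = b ∨ g a = b ∨ g (g a) = b ∨ g (g (g a)) = b) : cyc g = n :=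
  cyc_eq c hc (same_iff c hg h)

theorem c1 : cyc (rep false false) = 4 :=
  cyc_of (n := 4) ![0, 1, 2, 3] (by decide) (by decide) (by decide)
theorem c2 : cyc (rep false false * cen) = 2 :=
  cyc_of (n := 2) ![0, 1, 0, 1] (by decide) (by decide) (by decide)
theorem c3 : cyc (rep true false) = 3 :=
  cyc_of (n := 3) ![0, 1, 2, 1] (by decide) (by decide) (by decide)
theorem c4 : cyc (rep true false * cen) = 3 :=
  cyc_of (n := 3) ![0, 1, 0, 2] (by decide) (by decide) (by decide)
theorem c5 : cyc (rep false true) = 2 :=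
  cyc_of (n := 2) ![0, 0, 1, 1] (by decide) (by decide) (by decide)
theorem c6 : cyc (rep false true * cen) = 2 :=
  cyc_of (n := 2) ![0, 1, 1, 0] (by decide) (by decide) (by decide)
theorem c7 : cyc (rep true true) = 1 :=
  cyc_of (n := 1) ![0, 0, 0, 0] (by decide) (by decide) (by decide)
theorem c8 : cyc (rep true true * cen) = 1 :=
  cyc_of (n := 1) ![0, 0, 0, 0] (by decide) (by decide) (by decide)

theorem cyc_thm : CYC := by
  refine ⟨cyc_block, ?_⟩
  intro k p q
  cases p <;> cases q <;>
    simp only [c1, c2, c3, c4, c5, c6, c7, c8, F, if_true, if_false, Bool.false_eq_true,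
      one_ne_zero, pow_one] <;> ring

end Pool.Agent.Polya.H43
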